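import Pool.Agent.MP_9660fa_lc.H60.Upper
import Pool.Agent.MP_9660fa_lc.H60.Lower

namespace Pool.Agent.Results.MP_9660fa_lc.FiniteIffThree

open Pool.Agent.MP_9660fa_lc.H60

theorem result (k : WithTop ℕ∞) (hk : 1 ≤ k) :
    lieExponent k 2 = ⊤ ∧
      ∀ n : ℕ, 3 ≤ n → lieExponent k n ≤ ((3 * ((n : ℝ) - 1) / (n - 2) : ℝ) : EReal) :=
  ⟨lower_bound k hk, upper_bound k⟩

end Pool.Agent.Results.MP_9660fa_lc.FiniteIffThree
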